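import Mathlib

/-!
# A positive-fraction version of Kirchberger's theorem

Separation of `A' ⊆ A` from `B' ⊆ B` is feasibility of a system of closed half-spaces in dimension
`d + 1`. If almost all `(d + 2)`-subsystems are feasible, then by Helly's theorem a random subsystem
of a large constant size `r` is feasible with probability at least one half, and by a sampling
argument (each `(r + 1)`-subsystem has at most `d + 2` members that are violated by the minimum norm
solution of the others) that solution violates only few of the remaining constraints.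
-/

set_option autoImplicit false

namespace Pool.Agent.Results.MP_ff3a4f_co.FractionalKirchberger

open Finset

section Abstract

variable {F : Type*} [NormedAddCommGroup F] [InnerProductSpace ℝ F] [FiniteDimensional ℝ F]
variable {α : Type*} [DecidableEq α]

/-- Solutions of the constraints indexed by `S`. -/
def Sol (z : α → F) (S : Finset α) : Set F := {w | ∀ i ∈ S, 1 ≤ inner ℝ w (z i)}

/-- The constraints indexed by `S` have a common solution. -/
def Feas (z : α → F) (S : Finset α) : Prop := (Sol z S).Nonempty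

omit [FiniteDimensional ℝ F] [DecidableEq α] in
theorem Feas.mono {z : α → F} {S T : Finset α} (h : S ⊆ T) (hT : Feas z T) : Feas z S := by
  obtain ⟨w, hw⟩ := hT
  exact ⟨w, fun i hi => hw i (h hi)⟩

omit [FiniteDimensional ℝ F] [DecidableEq α] in
theorem sol_closed (z : α → F) (S : Finset α) : IsClosed (Sol z S) := by
  have : Sol z S = ⋂ i ∈ S, {w : F | 1 ≤ inner ℝ w (z i)} := by
    ext w; simp [Sol]
  rw [this]
  refine isClosed_biInter fun i _ => ?_
  exact isClosed_le continuous_const (continuous_id.inner continuous_const)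

omit [FiniteDimensional ℝ F] in
theorem half_convex (v : F) : Convex ℝ {w : F | 1 ≤ inner ℝ w v} := by
  intro a ha b hb s t hs ht hst
  simp only [Set.mem_ofPred_eq] at ha hb ⊢
  rw [inner_add_left, real_inner_smul_left, real_inner_smul_left]
  nlinarith

omit [FiniteDimensional ℝ F] [DecidableEq α] in
theorem sol_convex (z : α → F) (S : Finset α) : Convex ℝ (Sol z S) := by
  intro a ha b hb s t hs ht hst i hi
  exact half_convex (z i) (ha i hi) (hb i hi) hs ht hst

omit [DecidableEq α] in
theorem exists_min {z : α → F} {S : Finset α} (h : Feas z S) :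
    ∃ w ∈ Sol z S, ∀ w' ∈ Sol z S, ‖w‖ ≤ ‖w'‖ := by
  obtain ⟨y, hy, h1⟩ := (sol_closed z S).exists_infDist_eq_dist h (0 : F)
  refine ⟨y, hy, fun w' hw' => ?_⟩
  have h2 := Metric.infDist_le_dist_of_mem (x := (0 : F)) hw'
  rw [h1] at h2
  simpa [dist_eq_norm] using h2

omit [FiniteDimensional ℝ F] [DecidableEq α] in
theorem min_unique {z : α → F} {S : Finset α} {w w' : F} (hw : w ∈ Sol z S) (hw' : w' ∈ Sol z S)
    (h : ∀ v ∈ Sol z S, ‖w‖ ≤ ‖v‖) (h' : ∀ v ∈ Sol z S, ‖w'‖ ≤ ‖v‖) : w = w' := by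
  have e : ‖w‖ = ‖w'‖ := le_antisymm (h _ hw') (h' _ hw)
  have hm : (1 / 2 : ℝ) • w + (1 / 2 : ℝ) • w' ∈ Sol z S :=
    sol_convex z S hw hw' (by norm_num) (by norm_num) (by norm_num)
  have h1 := h _ hm
  have h2 : ‖(1 / 2 : ℝ) • w + (1 / 2 : ℝ) • w'‖ = (1 / 2) * ‖w + w'‖ := by
    rw [← smul_add, norm_smul]; norm_num
  have h3 := parallelogram_law_with_norm ℝ w w'
  rw [h2] at h1
  have h5 : ‖w - w'‖ * ‖w - w'‖ ≤ 0 := by
    have h6 : ‖w‖ * ‖w‖ ≤ (1 / 2 * ‖w + w'‖) * (1 / 2 * ‖w + w'‖) :=
      mul_self_le_mul_self (norm_nonneg _) h1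
    rw [← e] at h3
    nlinarith
  have h7 : ‖w - w'‖ = 0 := by
    have := norm_nonneg (w - w')
    nlinarith
  exact sub_eq_zero.1 (norm_eq_zero.1 h7)

open Classical in
/-- The minimum norm solution (or `0`). -/
noncomputable def pt (z : α → F) (S : Finset α) : F :=
  if h : Feas z S then (exists_min h).choose else 0

omit [DecidableEq α] in
theorem pt_mem {z : α → F} {S : Finset α} (h : Feas z S) : pt z S ∈ Sol z S := by
  rw [pt, dif_pos h]
  exact (exists_min h).choose_spec.1

omit [DecidableEq α] in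
theorem pt_min {z : α → F} {S : Finset α} (h : Feas z S) : ∀ v ∈ Sol z S, ‖pt z S‖ ≤ ‖v‖ := by
  rw [pt, dif_pos h]
  exact (exists_min h).choose_spec.2

omit [DecidableEq α] in
/-- Helly's theorem: an infeasible system has a small infeasible subsystem. -/
theorem helly {z : α → F} {T : Finset α} (h : ¬ Feas z T) :
    ∃ W ⊆ T, W.card ≤ Module.finrank ℝ F + 1 ∧ ¬ Feas z W := by
  by_contra hcon
  push Not at hcon
  apply h
  have := Convex.helly_theorem' (𝕜 := ℝ) (F := fun i => {w : F | 1 ≤ inner ℝ w (z i)}) (s := T)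
    (fun i _ => half_convex _) (fun I hI hc => by
      obtain ⟨w, hw⟩ := hcon I hI hc
      exact ⟨w, by simpa [Sol] using hw⟩)
  obtain ⟨w, hw⟩ := this
  exact ⟨w, by simpa [Sol] using hw⟩

/-- The minimum norm solution is determined by few constraints. -/
theorem basis {z : α → F} {T : Finset α} (h : Feas z T) :
    ∃ B ⊆ T, B.card ≤ Module.finrank ℝ F ∧ ∀ R, B ⊆ R → R ⊆ T → pt z R = pt z T := by
  have key : ∃ B ⊆ T, B.card ≤ Module.finrank ℝ F ∧ ∀ w ∈ Sol z B, ‖pt z T‖ ≤ ‖w‖ := by
    by_contra hcon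
    push Not at hcon
    let G : Option α → Set F := fun o =>
      match o with
      | none => Metric.ball 0 ‖pt z T‖
      | some i => {w : F | 1 ≤ inner ℝ w (z i)}
    have hconv : ∀ i ∈ Finset.insertNone T, Convex ℝ (G i) := by
      intro o _
      match o with
      | none => exact convex_ball _ _
      | some i => exact half_convex _
    have := Convex.helly_theorem' (𝕜 := ℝ) (F := G) (s := Finset.insertNone T) hconv
      (fun I hI hc => by
        by_cases hn : none ∈ I
        · have hB : Finset.eraseNone I ⊆ T := by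
            intro i hi
            rw [Finset.mem_eraseNone] at hi
            have := hI hi
            simpa using this
          have hcard : (Finset.eraseNone I).card ≤ Module.finrank ℝ F := by
            have h1 := Finset.card_eraseNone_of_mem hn
            omega
          obtain ⟨w, hw, hlt⟩ := hcon _ hB hcard
          refine ⟨w, ?_⟩
          simp only [Set.mem_iInter]
          intro o ho
          match o with
          | none => simpa [G] using hlt
          | some i => exact hw i (by simpa using ho)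
        · obtain ⟨w, hw⟩ := h
          refine ⟨w, ?_⟩
          simp only [Set.mem_iInter]
          intro o ho
          match o with
          | none => exact absurd ho hn
          | some i => exact hw i (by simpa using hI ho))
    obtain ⟨w, hw⟩ := this
    simp only [Set.mem_iInter] at hw
    have h1 : ‖w‖ < ‖pt z T‖ := by simpa [G] using hw none (by simp)
    have h2 : w ∈ Sol z T := fun i hi => hw (some i) (by simpa using hi)
    exact absurd (pt_min h w h2) (not_le.2 h1)
  obtain ⟨B, hBT, hc, hB⟩ := key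
  refine ⟨B, hBT, hc, fun R hBR hRT => ?_⟩
  have hR : Feas z R := h.mono hRT
  have h1 : pt z T ∈ Sol z R := fun i hi => pt_mem h i (hRT hi)
  have h2 : ∀ v ∈ Sol z R, ‖pt z T‖ ≤ ‖v‖ := fun v hv => hB v fun i hi => hv i (hBR hi)
  exact min_unique (pt_mem hR) h1 (pt_min hR) h2

open Classical in
/-- In each system at most `D + 1` constraints are violated by the solution of the others. -/
theorem card_bad (z : α → F) (T : Finset α) :
    (T.filter fun h => Feas z (T.erase h) ∧ ¬ 1 ≤ inner ℝ (pt z (T.erase h)) (z h)).card ≤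
      Module.finrank ℝ F + 1 := by
  by_cases hT : Feas z T
  · obtain ⟨B, hBT, hc, hB⟩ := basis hT
    refine (Finset.card_le_card (t := B) ?_).trans (by omega)
    intro h hh
    rw [Finset.mem_filter] at hh
    by_contra hhB
    have h1 : pt z (T.erase h) = pt z T :=
      hB _ (fun b hb => Finset.mem_erase.2 ⟨by rintro rfl; exact hhB hb, hBT hb⟩)
        (Finset.erase_subset _ _)
    exact hh.2.2 (by rw [h1]; exact pt_mem hT h hh.1)
  · obtain ⟨W, hWT, hc, hW⟩ := helly hT
    refine (Finset.card_le_card (t := W) ?_).trans hc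
    intro h hh
    rw [Finset.mem_filter] at hh
    by_contra hhW
    exact hW (hh.2.1.mono fun b hb => Finset.mem_erase.2 ⟨by rintro rfl; exact hhW hb, hWT hb⟩)

open Classical in
/-- Double counting. -/
theorem sampling (z : α → F) (X : Finset α) (r : ℕ) :
    ∑ R ∈ (X.powersetCard r).filter (Feas z),
      ((X \ R).filter fun h => ¬ 1 ≤ inner ℝ (pt z R) (z h)).card ≤
      (Module.finrank ℝ F + 1) * X.card.choose (r + 1) := by
  have h1 : ∑ R ∈ (X.powersetCard r).filter (Feas z),
      ((X \ R).filter fun h => ¬ 1 ≤ inner ℝ (pt z R) (z h)).card =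
      (((X.powersetCard r).filter (Feas z)).sigma fun R =>
        (X \ R).filter fun h => ¬ 1 ≤ inner ℝ (pt z R) (z h)).card := by
    rw [Finset.card_sigma]
  have h2 : ∑ T ∈ X.powersetCard (r + 1),
      (T.filter fun h => Feas z (T.erase h) ∧ ¬ 1 ≤ inner ℝ (pt z (T.erase h)) (z h)).card =
      ((X.powersetCard (r + 1)).sigma fun T =>
        T.filter fun h => Feas z (T.erase h) ∧ ¬ 1 ≤ inner ℝ (pt z (T.erase h)) (z h)).card := by
    rw [Finset.card_sigma]
  have h3 : (((X.powersetCard r).filter (Feas z)).sigma fun R =>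
        (X \ R).filter fun h => ¬ 1 ≤ inner ℝ (pt z R) (z h)).card ≤
      ((X.powersetCard (r + 1)).sigma fun T =>
        T.filter fun h => Feas z (T.erase h) ∧ ¬ 1 ≤ inner ℝ (pt z (T.erase h)) (z h)).card := by
    refine Finset.card_le_card_of_injOn (fun p => ⟨insert p.2 p.1, p.2⟩) ?_ ?_
    · rintro ⟨R, h⟩ hp
      simp only [Finset.coe_sigma, Set.mem_sigma_iff, Finset.mem_coe, Finset.mem_filter,
        Finset.mem_powersetCard, Finset.mem_sdiff] at hp ⊢
      obtain ⟨⟨⟨hRX, hRc⟩, hf⟩, ⟨hhX, hhR⟩, hv⟩ := hp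
      refine ⟨⟨Finset.insert_subset hhX hRX, by rw [Finset.card_insert_of_notMem hhR, hRc]⟩,
        Finset.mem_insert_self _ _, ?_, ?_⟩
      · rwa [Finset.erase_insert hhR]
      · rwa [Finset.erase_insert hhR]
    · rintro ⟨R, h⟩ hp ⟨R', h'⟩ hp' he
      simp only [Finset.coe_sigma, Set.mem_sigma_iff, Finset.mem_coe, Finset.mem_filter,
        Finset.mem_powersetCard, Finset.mem_sdiff] at hp hp'
      simp only [Sigma.mk.injEq, heq_eq_eq] at he
      obtain ⟨he1, rfl⟩ := he
      have : R = R' := by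
        rw [← Finset.erase_insert hp.2.1.2, he1, Finset.erase_insert hp'.2.1.2]
      subst this
      rfl
  rw [h1]
  refine h3.trans ?_
  rw [← h2]
  refine (Finset.sum_le_card_nsmul _ _ (Module.finrank ℝ F + 1) fun T _ => card_bad z T).trans ?_
  rw [Finset.card_powersetCard, smul_eq_mul, mul_comm]

open Classical in
/-- Few infeasible `(D + 1)`-subsets imply few infeasible `r`-subsets. -/
theorem infeasible_count (z : α → F) (X : Finset α) (r : ℕ) (hr : Module.finrank ℝ F + 1 ≤ r) :
    ((X.powersetCard r).filter fun R => ¬ Feas z R).card ≤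
      ((X.powersetCard (Module.finrank ℝ F + 1)).filter fun S => ¬ Feas z S).card *
        (X.card - (Module.finrank ℝ F + 1)).choose (r - (Module.finrank ℝ F + 1)) := by
  set k := Module.finrank ℝ F + 1 with hk
  have h1 : (X.powersetCard r).filter (fun R => ¬ Feas z R) ⊆
      ((X.powersetCard k).filter fun S => ¬ Feas z S).biUnion fun S =>
        (X.powersetCard r).filter fun R => S ⊆ R := by
    intro R hR
    rw [Finset.mem_filter, Finset.mem_powersetCard] at hR
    obtain ⟨⟨hRX, hRc⟩, hf⟩ := hR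
    obtain ⟨W, hWR, hWc, hW⟩ := helly hf
    obtain ⟨S, hWS, hSR, hSc⟩ := Finset.exists_subsuperset_card_eq hWR hWc (by rw [hRc]; exact hr)
    rw [Finset.mem_biUnion]
    refine ⟨S, ?_, ?_⟩
    · rw [Finset.mem_filter, Finset.mem_powersetCard]
      exact ⟨⟨hSR.trans hRX, hSc⟩, fun h => hW (h.mono hWS)⟩
    · rw [Finset.mem_filter, Finset.mem_powersetCard]
      exact ⟨⟨hRX, hRc⟩, hSR⟩
  refine (Finset.card_le_card h1).trans ?_
  refine Finset.card_biUnion_le_card_mul _ _ _ fun S hS => ?_
  rw [Finset.mem_filter, Finset.mem_powersetCard] at hS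
  obtain ⟨⟨hSX, hSc⟩, -⟩ := hS
  have h2 : ((X \ S).powersetCard (r - k)).card = (X.card - k).choose (r - k) := by
    rw [Finset.card_powersetCard, Finset.card_sdiff_of_subset hSX, hSc]
  rw [← h2]
  refine Finset.card_le_card_of_injOn (fun R => R \ S) ?_ ?_
  · intro R hR
    simp only [Finset.coe_filter, Set.mem_ofPred_eq, Finset.mem_powersetCard] at hR
    simp only [Finset.mem_coe, Finset.mem_powersetCard]
    refine ⟨Finset.sdiff_subset_sdiff hR.1.1 le_rfl, ?_⟩
    rw [Finset.card_sdiff_of_subset hR.2, hR.1.2, hSc]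
  · intro R hR R' hR' he
    simp only [Finset.coe_filter, Set.mem_ofPred_eq, Finset.mem_powersetCard] at hR hR'
    simp only at he
    rw [← Finset.sdiff_union_of_subset hR.2, he, Finset.sdiff_union_of_subset hR'.2]

open Classical in
/-- The abstract form of the theorem. -/
theorem abstract_main (z : α → F) (X : Finset α) (r : ℕ) (hr : Module.finrank ℝ F + 1 ≤ r)
    (hX : r ≤ X.card) (ε : ℝ)
    (hε : 2 * ε * (r.choose (Module.finrank ℝ F + 1) : ℝ) ≤ 1)
    (hbad : (((X.powersetCard (Module.finrank ℝ F + 1)).filter fun S => ¬ Feas z S).card : ℝ) ≤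
      ε * (X.card.choose (Module.finrank ℝ F + 1) : ℝ)) :
    ∃ w : F, ((X.filter fun h => ¬ 1 ≤ inner ℝ w (z h)).card : ℝ) * (r + 1) ≤
      2 * (Module.finrank ℝ F + 1) * X.card := by
  set k := Module.finrank ℝ F + 1 with hk
  set m := X.card with hm
  by_contra hcon
  have hcon : ∀ w : F, 2 * ((Module.finrank ℝ F : ℝ) + 1) * m <
      ((X.filter fun h => ¬ 1 ≤ inner ℝ w (z h)).card : ℝ) * (r + 1) :=
    fun w => not_le.1 fun h => hcon ⟨w, h⟩
  have hCpos : 0 < (m.choose r : ℝ) := by exact_mod_cast Nat.choose_pos hX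
  -- number of infeasible r-sets
  have h1 : (((X.powersetCard r).filter fun R => ¬ Feas z R).card : ℝ) ≤ (m.choose r : ℝ) / 2 := by
    have h2 : (((X.powersetCard r).filter fun R => ¬ Feas z R).card : ℝ) ≤
        (((X.powersetCard k).filter fun S => ¬ Feas z S).card : ℝ) * ((m - k).choose (r - k) : ℝ) := by
      exact_mod_cast infeasible_count z X r hr
    have h3 : (m.choose r : ℝ) * (r.choose k : ℝ) = (m.choose k : ℝ) * ((m - k).choose (r - k) : ℝ) := by
      exact_mod_cast Nat.choose_mul (n := m) hr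
    have h4 : (((X.powersetCard k).filter fun S => ¬ Feas z S).card : ℝ) * ((m - k).choose (r - k) : ℝ)
        ≤ ε * (m.choose k : ℝ) * ((m - k).choose (r - k) : ℝ) :=
      mul_le_mul_of_nonneg_right hbad (Nat.cast_nonneg _)
    have h5 : ε * (m.choose k : ℝ) * ((m - k).choose (r - k) : ℝ) =
        (m.choose r : ℝ) * (ε * (r.choose k : ℝ)) := by
      rw [mul_assoc, ← h3]; ring
    have h6 : (m.choose r : ℝ) * (ε * (r.choose k : ℝ)) ≤ (m.choose r : ℝ) * (1 / 2) := by
      apply mul_le_mul_of_nonneg_left _ hCpos.le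
      linarith
    linarith
  have h7 : (((X.powersetCard r).filter (Feas z)).card : ℝ) +
      (((X.powersetCard r).filter fun R => ¬ Feas z R).card : ℝ) = (m.choose r : ℝ) := by
    have := Finset.card_filter_add_card_filter_not (s := X.powersetCard r) (Feas z)
    rw [Finset.card_powersetCard] at this
    exact_mod_cast this
  have h8 : (m.choose r : ℝ) / 2 ≤ (((X.powersetCard r).filter (Feas z)).card : ℝ) := by linarith
  -- the sum
  have h9 : ((∑ R ∈ (X.powersetCard r).filter (Feas z),
      ((X \ R).filter fun h => ¬ 1 ≤ inner ℝ (pt z R) (z h)).card : ℕ) : ℝ) ≤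
      (k : ℝ) * (m.choose (r + 1) : ℝ) := by
    have := sampling z X r
    exact_mod_cast this
  have h10 : (m.choose (r + 1) : ℝ) * (r + 1) = (m.choose r : ℝ) * ((m - r : ℕ) : ℝ) := by
    exact_mod_cast Nat.choose_succ_right_eq m r
  have h11 : ∀ R ∈ (X.powersetCard r).filter (Feas z),
      2 * (k : ℝ) * m <
        (((X \ R).filter fun h => ¬ 1 ≤ inner ℝ (pt z R) (z h)).card : ℝ) * (r + 1) := by
    intro R hR
    rw [Finset.mem_filter, Finset.mem_powersetCard] at hR
    have h12 := hcon (pt z R)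
    have h13 : X.filter (fun h => ¬ 1 ≤ inner ℝ (pt z R) (z h)) =
        (X \ R).filter fun h => ¬ 1 ≤ inner ℝ (pt z R) (z h) := by
      ext h
      simp only [Finset.mem_filter, Finset.mem_sdiff]
      constructor
      · rintro ⟨h14, h15⟩
        exact ⟨⟨h14, fun h16 => h15 (pt_mem hR.2 h h16)⟩, h15⟩
      · rintro ⟨⟨h14, -⟩, h15⟩
        exact ⟨h14, h15⟩
    rw [h13] at h12
    have h14 : (k : ℝ) = (Module.finrank ℝ F : ℝ) + 1 := by rw [hk]; push_cast; ring
    rw [h14]
    exact h12
  have h12 : (((X.powersetCard r).filter (Feas z)).card : ℝ) * (2 * (k : ℝ) * m) ≤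
      ((∑ R ∈ (X.powersetCard r).filter (Feas z),
      ((X \ R).filter fun h => ¬ 1 ≤ inner ℝ (pt z R) (z h)).card : ℕ) : ℝ) * (r + 1) := by
    push_cast
    rw [Finset.sum_mul]
    calc (((X.powersetCard r).filter (Feas z)).card : ℝ) * (2 * (k : ℝ) * m) =
        ∑ _R ∈ (X.powersetCard r).filter (Feas z), (2 * (k : ℝ) * m) := by
          rw [Finset.sum_const, nsmul_eq_mul]
      _ ≤ _ := Finset.sum_le_sum fun R hR => (h11 R hR).le
  have hkpos : (0 : ℝ) < k := by rw [hk]; positivity
  have hmpos : (0 : ℝ) < m := by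
    have : 0 < m := lt_of_lt_of_le (by omega) hX
    exact_mod_cast this
  have h13 : ((m - r : ℕ) : ℝ) = (m : ℝ) - r := by
    rw [Nat.cast_sub hX]
  have hrpos : (0 : ℝ) < r := by
    have : 0 < r := by omega
    exact_mod_cast this
  have h14 : (k : ℝ) * (m.choose (r + 1) : ℝ) * (r + 1) = (k : ℝ) * ((m.choose r : ℝ) * ((m : ℝ) - r)) := by
    rw [mul_assoc, h10, h13]
  have h15 : (m.choose r : ℝ) / 2 * (2 * (k : ℝ) * m) ≤ (k : ℝ) * ((m.choose r : ℝ) * ((m : ℝ) - r)) := by
    calc (m.choose r : ℝ) / 2 * (2 * (k : ℝ) * m) ≤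
        (((X.powersetCard r).filter (Feas z)).card : ℝ) * (2 * (k : ℝ) * m) :=
          mul_le_mul_of_nonneg_right h8 (by positivity)
      _ ≤ _ := h12
      _ ≤ (k : ℝ) * (m.choose (r + 1) : ℝ) * (r + 1) :=
          mul_le_mul_of_nonneg_right h9 (by positivity)
      _ = _ := h14
  have h16 : (0 : ℝ) < (k : ℝ) * (m.choose r : ℝ) * r := by positivity
  nlinarith

end Abstract

section Concrete

/-- Euclidean space `ℝ^d`. -/
abbrev E (d : ℕ) : Type := EuclideanSpace ℝ (Fin d)

/-- `P` and `Q` are separated: one of them is empty or some hyperplane `⟪u, ·⟫ = c` has `P` in one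
of its open sides and `Q` in the other. -/
def Separated {d : ℕ} (P Q : Finset (E d)) : Prop :=
  P = ∅ ∨ Q = ∅ ∨ ∃ u : E d, u ≠ 0 ∧ ∃ c : ℝ,
    (∀ p ∈ P, c < inner ℝ u p) ∧ (∀ q ∈ Q, inner ℝ u q < c)

/-- General position: all subsets of at most `d + 1` points are affinely independent. -/
def InGeneralPosition {d : ℕ} (X : Finset (E d)) : Prop :=
  ∀ T ⊆ X, T.card ≤ d + 1 → AffineIndependent ℝ (fun p : T => (p : E d))

open Classical in
/-- A set is good if its `A`-part is separated from its `B`-part. -/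
def Good {d : ℕ} (A B S : Finset (E d)) : Prop := Separated (A ∩ S) (B ∩ S)

/-- The lifting space. -/
abbrev F (d : ℕ) : Type := WithLp 2 (E d × ℝ)

theorem finrank_F (d : ℕ) : Module.finrank ℝ (F d) = d + 1 := by
  rw [LinearEquiv.finrank_eq (WithLp.linearEquiv 2 ℝ (E d × ℝ))]
  simp

open Classical in
/-- The lifted constraints. -/
noncomputable def lift {d : ℕ} (A : Finset (E d)) (p : E d) : F d :=
  if p ∈ A then WithLp.toLp 2 (p, (-1 : ℝ)) else WithLp.toLp 2 (-p, (1 : ℝ))

theorem inner_lift_mem {d : ℕ} {A : Finset (E d)} {p : E d} (hp : p ∈ A) (w : F d) :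
    inner ℝ w (lift A p) = inner ℝ w.fst p - w.snd := by
  rw [lift, if_pos hp, WithLp.prod_inner_apply]
  simp [sub_eq_add_neg]

theorem inner_lift_notMem {d : ℕ} {A : Finset (E d)} {p : E d} (hp : p ∉ A) (w : F d) :
    inner ℝ w (lift A p) = w.snd - inner ℝ w.fst p := by
  rw [lift, if_neg hp, WithLp.prod_inner_apply]
  simp [sub_eq_add_neg, add_comm]

/-- Good sets give feasible systems. -/
theorem feas_of_separated {d : ℕ} {A B : Finset (E d)} (hAB : Disjoint A B) {P Q : Finset (E d)}
    (hP : P ⊆ A) (hQ : Q ⊆ B) (h : Separated P Q) {S : Finset (E d)}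
    (hS : ∀ s ∈ S, s ∈ P ∨ s ∈ Q) : Feas (lift A) S := by
  have hB : ∀ q ∈ B, q ∉ A := fun q hq h => Finset.disjoint_left.1 hAB h hq
  rcases h with rfl | rfl | ⟨u, -, c, h1, h2⟩
  · refine ⟨WithLp.toLp 2 ((0 : E d), (1 : ℝ)), fun s hs => ?_⟩
    rcases hS s hs with h | h
    · simp at h
    · rw [inner_lift_notMem (hB s (hQ h))]
      simp
  · refine ⟨WithLp.toLp 2 ((0 : E d), (-1 : ℝ)), fun s hs => ?_⟩
    rcases hS s hs with h | h
    · rw [inner_lift_mem (hP h)]
      simp
    · simp at h
  · -- choose a positive lower bound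
    have h3 : ∃ δ : ℝ, 0 < δ ∧ (∀ p ∈ P, c + δ ≤ inner ℝ u p) ∧ (∀ q ∈ Q, inner ℝ u q ≤ c - δ) := by
      have h4 : ∀ X : Finset (E d), ∀ f : E d → ℝ, (∀ x ∈ X, 0 < f x) →
          ∃ δ : ℝ, 0 < δ ∧ ∀ x ∈ X, δ ≤ f x := by
        intro X f
        induction X using Finset.induction_on with
        | empty => exact fun _ => ⟨1, one_pos, by simp⟩
        | insert a X ha ih =>
          intro hf
          obtain ⟨δ, h5, h6⟩ := ih fun x hx => hf x (Finset.mem_insert_of_mem hx)
          refine ⟨min δ (f a), lt_min h5 (hf a (Finset.mem_insert_self _ _)), fun x hx => ?_⟩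
          rcases Finset.mem_insert.1 hx with rfl | hx
          · exact min_le_right _ _
          · exact (min_le_left _ _).trans (h6 x hx)
      obtain ⟨δ, h5, h6⟩ := h4 P (fun p => inner ℝ u p - c) fun p hp => by
        have := h1 p hp
        linarith
      obtain ⟨δ', h7, h8⟩ := h4 Q (fun q => c - inner ℝ u q) fun q hq => by
        have := h2 q hq
        linarith
      refine ⟨min δ δ', lt_min h5 h7, fun p hp => ?_, fun q hq => ?_⟩
      · have h9 := h6 p hp
        have h10 := min_le_left δ δ'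
        linarith
      · have h9 := h8 q hq
        have h10 := min_le_right δ δ'
        linarith
    obtain ⟨δ, hδ, h3, h4⟩ := h3
    refine ⟨WithLp.toLp 2 (δ⁻¹ • u, δ⁻¹ * c), fun s hs => ?_⟩
    rcases hS s hs with h | h
    · rw [inner_lift_mem (hP h)]
      have := h3 s h
      change 1 ≤ inner ℝ (δ⁻¹ • u) s - δ⁻¹ * c
      rw [real_inner_smul_left, ← mul_sub, ← inv_mul_cancel₀ hδ.ne']
      exact mul_le_mul_of_nonneg_left (by linarith) (inv_nonneg.2 hδ.le)
    · rw [inner_lift_notMem (hB s (hQ h))]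
      have := h4 s h
      change 1 ≤ δ⁻¹ * c - inner ℝ (δ⁻¹ • u) s
      rw [real_inner_smul_left, ← mul_sub, ← inv_mul_cancel₀ hδ.ne']
      exact mul_le_mul_of_nonneg_left (by linarith) (inv_nonneg.2 hδ.le)

/-- A point of the lifting space gives a separated pair. -/
theorem separated_of_point {d : ℕ} {A B : Finset (E d)} (hAB : Disjoint A B) (w : F d)
    {P Q : Finset (E d)} (hP : P ⊆ A) (hQ : Q ⊆ B) (h : ∀ p ∈ P, 1 ≤ inner ℝ w (lift A p))
    (h' : ∀ q ∈ Q, 1 ≤ inner ℝ w (lift A q)) : Separated P Q := by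
  have hB : ∀ q ∈ B, q ∉ A := fun q hq h => Finset.disjoint_left.1 hAB h hq
  rcases P.eq_empty_or_nonempty with rfl | ⟨p₀, hp₀⟩
  · exact Or.inl rfl
  rcases Q.eq_empty_or_nonempty with rfl | ⟨q₀, hq₀⟩
  · exact Or.inr (Or.inl rfl)
  refine Or.inr (Or.inr ⟨w.fst, ?_, w.snd, fun p hp => ?_, fun q hq => ?_⟩)
  · intro h0
    have h1 := h p₀ hp₀
    have h2 := h' q₀ hq₀
    rw [inner_lift_mem (hP hp₀), h0, inner_zero_left] at h1
    rw [inner_lift_notMem (hB _ (hQ hq₀)), h0, inner_zero_left] at h2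
    linarith
  · have h1 := h p hp
    rw [inner_lift_mem (hP hp)] at h1
    linarith
  · have h2 := h' q hq
    rw [inner_lift_notMem (hB _ (hQ hq))] at h2
    linarith

/-- Disjoint parts of an affinely independent set are separated. -/
theorem separated_of_affineIndependent {d : ℕ} {A B : Finset (E d)} (hAB : Disjoint A B)
    {X : Finset (E d)} (hA : A ⊆ X) (hB : B ⊆ X)
    (h : AffineIndependent ℝ (fun p : X => (p : E d))) : Separated A B := by
  rcases A.eq_empty_or_nonempty with rfl | ⟨p₀, hp₀⟩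
  · exact Or.inl rfl
  rcases B.eq_empty_or_nonempty with rfl | ⟨q₀, hq₀⟩
  · exact Or.inr (Or.inl rfl)
  have h1 := AffineIndependent.convexHull_inter (R := ℝ) h (t₁ := B) (t₂ := A) hB hA
  have h2 : (B : Set (E d)) ∩ (A : Set (E d)) = ∅ := by
    rw [← Set.disjoint_iff_inter_eq_empty]
    exact_mod_cast hAB.symm
  rw [h2, convexHull_empty] at h1
  obtain ⟨f, u, v, h3, h4, h5⟩ := geometric_hahn_banach_compact_closed
    (convex_convexHull ℝ (B : Set (E d))) (B.finite_toSet.isCompact_convexHull ℝ)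
    (convex_convexHull ℝ (A : Set (E d))) (A.finite_toSet.isClosed_convexHull ℝ)
    (Set.disjoint_iff_inter_eq_empty.2 h1.symm)
  have h6 : ∀ x, inner ℝ ((InnerProductSpace.toDual ℝ (E d)).symm f) x = f x := fun x =>
    InnerProductSpace.toDual_symm_apply
  have h7 : ∀ q ∈ B, f q < u := fun q hq => h3 q (subset_convexHull ℝ _ (by exact_mod_cast hq))
  have h8 : ∀ p ∈ A, v < f p := fun p hp => h5 p (subset_convexHull ℝ _ (by exact_mod_cast hp))
  refine Or.inr (Or.inr ⟨(InnerProductSpace.toDual ℝ (E d)).symm f, ?_, u, fun p hp => ?_,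
    fun q hq => ?_⟩)
  · intro h0
    have h9 := h6 p₀
    have h10 := h6 q₀
    rw [h0, inner_zero_left] at h9 h10
    have := h7 q₀ hq₀
    have := h8 p₀ hp₀
    linarith
  · rw [h6]
    have := h8 p hp
    linarith
  · rw [h6]
    exact h7 q hq

open Classical Filter Topology in
/-- **A positive-fraction version of Kirchberger's theorem.** -/
theorem result (d : ℕ) :
    ∃ g : ℝ → ℝ, Tendsto g (𝓝[≥] 0) (𝓝 0) ∧
      ∀ (ε : ℝ), 0 ≤ ε → ∀ (N : ℕ) (A B : Finset (E d)), Disjoint A B → A.card = N → B.card = N →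
        (2 * N ≤ d + 1 → InGeneralPosition (A ∪ B)) →
        (1 - ε) * ((2 * N).choose (d + 2) : ℝ) ≤
          ((((A ∪ B).powersetCard (d + 2)).filter fun S => Good A B S).card : ℝ) →
        ∃ A' ⊆ A, ∃ B' ⊆ B, Separated A' B' ∧
          (1 - g ε) * N ≤ A'.card ∧ (1 - g ε) * N ≤ B'.card := by
  have hk : Module.finrank ℝ (F d) + 1 = d + 2 := by rw [finrank_F]
  have hkpos : (0 : ℝ) < ((d + 2 : ℕ) : ℝ) := by positivity
  refine ⟨fun ε => 4 * ((d + 2 : ℕ) : ℝ) * (2 * ε) ^ ((1 : ℝ) / ((d + 2 : ℕ) : ℝ)), ?_, ?_⟩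
  · have h1 : Continuous fun ε : ℝ =>
        4 * ((d + 2 : ℕ) : ℝ) * (2 * ε) ^ ((1 : ℝ) / ((d + 2 : ℕ) : ℝ)) := by
      refine continuous_const.mul ?_
      refine (continuous_const.mul continuous_id).rpow_const fun x => Or.inr (by positivity)
    have h2 := h1.tendsto 0
    rw [mul_zero, Real.zero_rpow (by positivity), mul_zero] at h2
    exact h2.mono_left nhdsWithin_le_nhds
  intro ε hε N A B hAB hA hB hgp hgood
  have hgnn : 0 ≤ 4 * ((d + 2 : ℕ) : ℝ) * (2 * ε) ^ ((1 : ℝ) / ((d + 2 : ℕ) : ℝ)) := by positivity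
  set X := A ∪ B with hX
  have hXcard : X.card = 2 * N := by rw [hX, Finset.card_union_of_disjoint hAB, hA, hB]; ring
  have hB' : ∀ q ∈ B, q ∉ A := fun q hq h => Finset.disjoint_left.1 hAB h hq
  -- small point sets
  rcases le_or_gt (2 * N) (d + 1) with hN | hN
  · refine ⟨A, subset_rfl, B, subset_rfl, ?_, ?_, ?_⟩
    · exact separated_of_affineIndependent hAB Finset.subset_union_left Finset.subset_union_right
        (hgp hN X subset_rfl (by rw [hXcard]; exact hN))
    · rw [hA]
      have : (0 : ℝ) ≤ N := Nat.cast_nonneg _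
      nlinarith
    · rw [hB]
      have : (0 : ℝ) ≤ N := Nat.cast_nonneg _
      nlinarith
  -- the bad sets
  have hbad : (((X.powersetCard (d + 2)).filter fun S => ¬ Feas (lift A) S).card : ℝ) ≤
      ε * ((2 * N).choose (d + 2) : ℝ) := by
    have h1 : ((X.powersetCard (d + 2)).filter fun S => Good A B S).card ≤
        ((X.powersetCard (d + 2)).filter fun S => Feas (lift A) S).card := by
      refine Finset.card_le_card fun S hS => ?_
      rw [Finset.mem_filter] at hS ⊢
      refine ⟨hS.1, ?_⟩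
      rw [Finset.mem_powersetCard] at hS
      refine feas_of_separated hAB Finset.inter_subset_left Finset.inter_subset_left hS.2
        fun s hs => ?_
      rcases Finset.mem_union.1 (hS.1.1 hs) with h | h
      · exact Or.inl (Finset.mem_inter.2 ⟨h, hs⟩)
      · exact Or.inr (Finset.mem_inter.2 ⟨h, hs⟩)
    have h2 := Finset.card_filter_add_card_filter_not (s := X.powersetCard (d + 2))
      (fun S => Feas (lift A) S)
    rw [Finset.card_powersetCard, hXcard] at h2
    have h3 : (((X.powersetCard (d + 2)).filter fun S => Feas (lift A) S).card : ℝ) +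
      (((X.powersetCard (d + 2)).filter fun S => ¬ Feas (lift A) S).card : ℝ) =
        ((2 * N).choose (d + 2) : ℝ) := by exact_mod_cast h2
    have h4 : (((X.powersetCard (d + 2)).filter fun S => Good A B S).card : ℝ) ≤
        (((X.powersetCard (d + 2)).filter fun S => Feas (lift A) S).card : ℝ) := by
      exact_mod_cast h1
    linarith
  rcases Nat.eq_zero_or_pos ((X.powersetCard (d + 2)).filter fun S => ¬ Feas (lift A) S).card
    with h0 | h0
  · -- no bad sets
    have hf : Feas (lift A) X := by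
      by_contra hf
      obtain ⟨W, hWX, hWc, hW⟩ := helly hf
      rw [hk] at hWc
      obtain ⟨S, hWS, hSX, hSc⟩ := Finset.exists_subsuperset_card_eq hWX hWc
        (by rw [hXcard]; exact hN)
      have : S ∈ (X.powersetCard (d + 2)).filter fun S => ¬ Feas (lift A) S := by
        rw [Finset.mem_filter, Finset.mem_powersetCard]
        exact ⟨⟨hSX, hSc⟩, fun h => hW (h.mono hWS)⟩
      rw [Finset.card_eq_zero] at h0
      rw [h0] at this
      simp at this
    obtain ⟨w, hw⟩ := hf
    refine ⟨A, subset_rfl, B, subset_rfl, ?_, ?_, ?_⟩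
    · exact separated_of_point hAB w subset_rfl subset_rfl
        (fun p hp => hw p (Finset.mem_union_left _ hp))
        (fun q hq => hw q (Finset.mem_union_right _ hq))
    · rw [hA]
      have : (0 : ℝ) ≤ N := Nat.cast_nonneg _
      nlinarith
    · rw [hB]
      have : (0 : ℝ) ≤ N := Nat.cast_nonneg _
      nlinarith
  -- at least one bad set
  have h1 : (1 : ℝ) ≤ ε * ((2 * N).choose (d + 2) : ℝ) := by
    refine le_trans ?_ hbad
    exact_mod_cast h0
  have hεpos : 0 < ε := by
    rcases hε.eq_or_lt with h | h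
    · rw [← h] at h1; norm_num at h1
    · exact h
  rcases le_or_gt 1 (4 * ((d + 2 : ℕ) : ℝ) * (2 * ε) ^ ((1 : ℝ) / ((d + 2 : ℕ) : ℝ)))
    with hg | hg
  · refine ⟨∅, Finset.empty_subset _, ∅, Finset.empty_subset _, Or.inl rfl, ?_, ?_⟩
    all_goals
      rw [Finset.card_empty]
      have : (0 : ℝ) ≤ N := Nat.cast_nonneg _
      push_cast
      push_cast at hg
      nlinarith
  set τ : ℝ := (2 * ε) ^ ((1 : ℝ) / ((d + 2 : ℕ) : ℝ)) with hτ
  have hτpos : 0 < τ := by positivity
  have hτpow : τ ^ (d + 2) = 2 * ε := by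
    rw [hτ, ← Real.rpow_natCast, ← Real.rpow_mul (by positivity)]
    rw [one_div, inv_mul_cancel₀ (by positivity), Real.rpow_one]
  set r : ℕ := ⌊τ⁻¹⌋₊ with hr
  have hr1 : (r : ℝ) ≤ τ⁻¹ := Nat.floor_le (by positivity)
  have hr2 : τ⁻¹ < (r : ℝ) + 1 := Nat.lt_floor_add_one _
  have hkr : d + 2 ≤ r := by
    rw [hr, Nat.le_floor_iff (by positivity)]
    rw [le_inv_comm₀ hkpos hτpos, ← one_div, le_div_iff₀ hkpos]
    nlinarith
  have hrN : r ≤ 2 * N := by
    have h2 : (1 : ℝ) ≤ ε * ((2 * N : ℕ) : ℝ) ^ (d + 2) := by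
      refine h1.trans (mul_le_mul_of_nonneg_left ?_ hε)
      exact_mod_cast Nat.choose_le_pow (2 * N) (d + 2)
    have h3 : (r : ℝ) ^ (d + 2) ≤ ((2 * N : ℕ) : ℝ) ^ (d + 2) := by
      have h4 : (r : ℝ) ^ (d + 2) ≤ (τ⁻¹) ^ (d + 2) :=
        pow_le_pow_left₀ (Nat.cast_nonneg _) hr1 _
      rw [inv_pow, hτpow] at h4
      refine h4.trans ?_
      rw [inv_le_iff_one_le_mul₀ (by positivity)]
      nlinarith
    have h4 := le_of_pow_le_pow_left₀ (by omega) (Nat.cast_nonneg _) h3
    exact_mod_cast h4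
  obtain ⟨w, hw⟩ := abstract_main (lift A) X r (by rw [hk]; exact hkr) (by rw [hXcard]; exact hrN) ε
    (by
      rw [hk]
      have h2 : (r.choose (d + 2) : ℝ) ≤ (τ⁻¹) ^ (d + 2) := by
        refine le_trans ?_ (pow_le_pow_left₀ (Nat.cast_nonneg _) hr1 _)
        exact_mod_cast Nat.choose_le_pow r (d + 2)
      rw [inv_pow, hτpow] at h2
      calc 2 * ε * (r.choose (d + 2) : ℝ) ≤ 2 * ε * (2 * ε)⁻¹ :=
            mul_le_mul_of_nonneg_left h2 (by positivity)
        _ = 1 := mul_inv_cancel₀ (by positivity)) (by rw [hk, hXcard]; exact hbad)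
  set V := (X.filter fun h => ¬ 1 ≤ inner ℝ w (lift A h)).card with hV
  have hVle : (V : ℝ) ≤ 4 * ((d + 2 : ℕ) : ℝ) * τ * N := by
    have h2 : ((Module.finrank ℝ (F d) : ℝ) + 1) = ((d + 2 : ℕ) : ℝ) := by exact_mod_cast hk
    rw [h2, hXcard] at hw
    have h3 : (V : ℝ) * τ⁻¹ ≤ 2 * ((d + 2 : ℕ) : ℝ) * ((2 * N : ℕ) : ℝ) :=
      (mul_le_mul_of_nonneg_left hr2.le (Nat.cast_nonneg _)).trans hw
    rw [← div_eq_mul_inv, div_le_iff₀ hτpos] at h3
    push_cast at h3 ⊢
    nlinarith
  refine ⟨A.filter fun p => 1 ≤ inner ℝ w (lift A p), Finset.filter_subset _ _,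
    B.filter fun p => 1 ≤ inner ℝ w (lift A p), Finset.filter_subset _ _, ?_, ?_, ?_⟩
  · exact separated_of_point hAB w (Finset.filter_subset _ _) (Finset.filter_subset _ _)
      (fun p hp => (Finset.mem_filter.1 hp).2) (fun q hq => (Finset.mem_filter.1 hq).2)
  · have h2 := Finset.card_filter_add_card_filter_not (s := A) (fun p => 1 ≤ inner ℝ w (lift A p))
    have h3 : (A.filter fun p => ¬ 1 ≤ inner ℝ w (lift A p)).card ≤ V :=
      Finset.card_le_card (Finset.filter_subset_filter _ Finset.subset_union_left)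
    have h4 : (N : ℝ) ≤ ((A.filter fun p => 1 ≤ inner ℝ w (lift A p)).card : ℝ) + V := by
      rw [hA] at h2
      exact_mod_cast (by omega :
        N ≤ (A.filter fun p => 1 ≤ inner ℝ w (lift A p)).card + V)
    nlinarith
  · have h2 := Finset.card_filter_add_card_filter_not (s := B) (fun p => 1 ≤ inner ℝ w (lift A p))
    have h3 : (B.filter fun p => ¬ 1 ≤ inner ℝ w (lift A p)).card ≤ V :=
      Finset.card_le_card (Finset.filter_subset_filter _ Finset.subset_union_right)
    have h4 : (N : ℝ) ≤ ((B.filter fun p => 1 ≤ inner ℝ w (lift A p)).card : ℝ) + V := by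
      rw [hB] at h2
      exact_mod_cast (by omega :
        N ≤ (B.filter fun p => 1 ≤ inner ℝ w (lift A p)).card + V)
    nlinarith

end Concrete

end Pool.Agent.Results.MP_ff3a4f_co.FractionalKirchberger
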